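import Pool.Agent.H25.CFL.Targets

/-!
# MP_e37c09_lc: module NB1 (board hcl_modules)
-/

open Ordinal Cardinal Order Set
open scoped ZFSet

universe u

namespace Pool.Agent.H1.CFL

open _root_.HD Pool.Agent.H25.CFL

theorem NS_mono {δ δ' μ κ : Ordinal.{u}} (hle : δ ≤ δ') (h : NS δ μ κ) : NS δ' μ κ :=
  fun s hs hd hp => h s hs hd fun i hi => hp i (hi.trans_le hle)

/-- NB. -/
theorem pf_NB1 (hNA : T_NA1.{u}) : T_NB1.{u} := by
  intro D M lam hD hM hMD hl hDl
  by_cases h : lam.cof < lam.card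
  · exact hNA M lam hl h
  · have h1 : D ≤ lam.card := by
      rw [← Cardinal.ord_le]
      exact hDl.le
    have h2 : D ≤ lam.cof := h1.trans (not_lt.1 h)
    exact NS_mono (Cardinal.ord_le_ord.2 h1) (hD.2.2.2 M hM hMD lam h2)

end Pool.Agent.H1.CFL
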